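import Pool.Agent.TH188.QS.LU

/-!
MP_53121e_ag: local uniformization, in arbitrary dimension, of the discrete valuations of arbitrary
finite rank, and of valuations with divergent sequences of quadratic transforms, of function
fields over arbitrary fields.
-/

set_option autoImplicit false

universe u

namespace Pool.Agent.Results.MP_53121e_ag.DiscretePlaces

open IsLocalRing Pool.Agent.W418.LU2 Pool.Agent.TH188.QS

/-- The coordinate ring `k[H l / H j : l]` of the chart `j` of the projective model of `K` with the
homogeneous coordinates `H`. -/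
def modelChart (k : Type u) {K : Type u} [Field k] [Field K] [Algebra k K] {N : ℕ} (H : Fin N → K)
    (j : Fin N) : Subalgebra k K :=
  Algebra.adjoin k (Set.range fun l => H l / H j)

/-- The function field `K` of `k` has a projective model (with homogeneous coordinates `H`) on
which the centre of the valuation ring `V` is a regular point. The chart `j` contains the centre of
`V`, and `P` is the ideal of the centre. -/
def IsUniformizable (k : Type u) {K : Type u} [Field k] [Field K] [Algebra k K]
    (V : ValuationSubring K) : Prop :=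
  ∃ (N : ℕ) (H : Fin N → K) (j : Fin N), H j ≠ 0 ∧ (∀ l, H l / H j ∈ V) ∧
    (∀ z : K, ∃ a ∈ modelChart k H j, ∃ b ∈ modelChart k H j, b ≠ 0 ∧ z = a / b) ∧
    ∃ P : Ideal (modelChart k H j), ∃ (_ : P.IsPrime),
      (∀ b : modelChart k H j, b ∈ P ↔ V.valuation (b : K) < 1) ∧
        IsRegularLocalRing (Localization.AtPrime P)

/-- The local ring of `Spec B` at the centre of the valuation ring `V`: the fractions of elements
of `B` whose denominators are units of `V`. -/
def centreRing {F : Type u} [Field F] (V : ValuationSubring F) (B : Subring F) : Subring F where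
  carrier := {x | ∃ a ∈ B, ∃ b ∈ B, b ≠ 0 ∧ b⁻¹ ∈ V ∧ x = a * b⁻¹}
  mul_mem' := (lo V.toSubring B).mul_mem'
  one_mem' := (lo V.toSubring B).one_mem'
  add_mem' := (lo V.toSubring B).add_mem'
  zero_mem' := (lo V.toSubring B).zero_mem'
  neg_mem' := (lo V.toSubring B).neg_mem'

/-- The image of the `k`-algebra generated by `T`. -/
def adjoined {k K : Type u} [CommRing k] [Field K] (ρ : k →+* K) (T : Set K) : Subring K :=
  Subring.closure ((ρ.range : Set K) ∪ T)

/-- The quadratic transform of `Q` along `V`: the local ring, at the centre of `V`, of the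
blowing-up of `Spec Q` in the centre of `V`. -/
def quadraticTransform {K : Type u} [Field K] (V : ValuationSubring K) (Q : Subring K) :
    Subring K :=
  centreRing V (Subring.closure ((Q : Set K) ∪ {t | ∃ y ∈ Q, ∃ z ∈ Q,
    V.valuation y < 1 ∧ z ≠ 0 ∧ V.valuation z < 1 ∧
      (∀ w ∈ Q, V.valuation w < 1 → V.valuation w ≤ V.valuation z) ∧ t = y / z}))

/-- The sequence of quadratic transforms of the local ring of `Spec A` at the centre of `V`. -/
def quadraticSequence {K : Type u} [Field K] (V : ValuationSubring K) (A : Subring K) :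
    ℕ → Subring K
  | 0 => centreRing V A
  | n + 1 => quadraticTransform V (quadraticSequence V A n)

/-- The values of the maximal ideals in the sequence of quadratic transforms have an infinite sum:
every value of `V` is exceeded by the value of all products `z 0 * ... * z (n - 1)` of elements
`z i` of the maximal ideals of the rings of the sequence, for some `n`. -/
def IsDivergent {K : Type u} [Field K] (V : ValuationSubring K) (A : Subring K) : Prop :=
  ∀ x : K, x ≠ 0 → ∃ n : ℕ, ∀ z : ℕ → K,
    (∀ i < n, z i ∈ quadraticSequence V A i ∧ z i ≠ 0 ∧ V.valuation (z i) < 1) →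
      V.valuation (∏ i ∈ Finset.range n, z i) < V.valuation x

/-- `V` is the composite of the valuation ring `V₁` and the valuation ring `W` of its residue
field. -/
def IsComposite {K : Type u} [Field K] (V V₁ : ValuationSubring K)
    (W : ValuationSubring (ResidueField V₁)) : Prop :=
  ∀ z : K, z ∈ V ↔ ∃ hz : z ∈ V₁, residue V₁ ⟨z, hz⟩ ∈ W

/-- `V` is the composite of `n` valuations each of which is discrete of rank one, or is divergent
on all `k`-algebras of finite type. -/
def IsStepwiseDivergent (k : Type u) [CommRing k] : ℕ → ∀ {K : Type u} [Field K], (k →+* K) →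
    ValuationSubring K → Prop
  | 0, _, _, _, V => V = ⊤
  | n + 1, K, _, ρ, V => ∃ (V₁ : ValuationSubring K) (W : ValuationSubring (ResidueField V₁))
      (hρ : ∀ a, ρ a ∈ V₁.toSubring), IsComposite V V₁ W ∧
      (IsDiscreteValuationRing V₁ ∨
        ∀ T : Set K, T.Finite → adjoined ρ T ≤ V₁.toSubring → IsDivergent V₁ (adjoined ρ T)) ∧
      IsStepwiseDivergent k n ((residue V₁).comp (ρ.codRestrict V₁.toSubring hρ)) W

lemma quadraticSequence_eq {K : Type u} [Field K] (V : ValuationSubring K) (A : Subring K) :
    quadraticSequence V A = qseq V A := by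
  funext n
  induction n with
  | zero => rfl
  | succ n ih =>
    change quadraticTransform V (quadraticSequence V A n) = qt V.toSubring (qseq V A n)
    rw [ih, qt_val]
    rfl

lemma IsDivergent.dv {K : Type u} [Field K] {V : ValuationSubring K} {A : Subring K}
    (h : IsDivergent V A) : Dv V (qseq V A) := by
  rw [← quadraticSequence_eq]
  exact dv_of_lt h

lemma IsStepwiseDivergent.sd {R : Type u} [CommRing R] (n : ℕ) : ∀ {K : Type u} [Field K]
    (ρ : R →+* K) (V : ValuationSubring K), IsStepwiseDivergent R n ρ V → SD R n ρ V := by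
  induction n with
  | zero => exact fun ρ V h => h
  | succ n ih =>
    intro K _ ρ V h
    obtain ⟨V₁, W, hρ, hc, hd, hW⟩ := h
    exact ⟨V₁, W, hρ, hc, hd.imp_right fun h T hT hTV => (h T hT hTV).dv, ih _ _ hW⟩

/-- Let `k` be a field, `K` a finitely generated field extension of `k` and `V` a valuation ring of
`K` which contains `k`. Suppose that `V` is the composite of `n` valuations each of which is
discrete of rank one or divergent (for example, `V` is discrete of rank `n`), or that the sequence
of quadratic transforms along `V` of some finitely generated `k`-algebra in `V` with fraction field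
`K` is divergent. Then `K` has a projective model on which the centre of `V` is a regular point. -/
theorem result (k K : Type u) [Field k] [Field K] [Algebra k K] [Algebra.EssFiniteType k K]
    (V : ValuationSubring K) (hkV : ∀ a : k, algebraMap k K a ∈ V)
    (hV : (∃ n, IsStepwiseDivergent k n (algebraMap k K) V) ∨
      ∃ T : Set K, T.Finite ∧ adjoined (algebraMap k K) T ≤ V.toSubring ∧
        (∀ z : K, ∃ a ∈ adjoined (algebraMap k K) T, ∃ b ∈ adjoined (algebraMap k K) T,
          b ≠ 0 ∧ z = a / b) ∧ IsDivergent V (adjoined (algebraMap k K) T)) :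
    IsUniformizable k V := by
  classical
  -- an affine model
  obtain ⟨S, hSf, hSV, hfr, hS⟩ : ∃ S : Set K, S.Finite ∧
      adjoined (algebraMap k K) S ≤ V.toSubring ∧
      (∀ z : K, ∃ a ∈ adjoined (algebraMap k K) S, ∃ b ∈ adjoined (algebraMap k K) S,
        b ≠ 0 ∧ z = a / b) ∧ ((∃ n, SD k n (algebraMap k K) V) ∨
          Dv V (qseq V (adjoined (algebraMap k K) S))) := by
    rcases hV with ⟨n, hn⟩ | ⟨T, hT, hTV, hfr, hdv⟩
    · obtain ⟨σ, hσ⟩ := (Algebra.essFiniteType_iff (R := k) (S := K)).1 inferInstance
      let f : K → K := fun s => if s ∈ V then s else s⁻¹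
      have hfV : ∀ s, f s ∈ V := by
        intro s
        by_cases hs : s ∈ V
        · simp only [f, if_pos hs]; exact hs
        · simp only [f, if_neg hs]; exact (V.mem_or_inv_mem s).resolve_left hs
      have hSV : adjoined (algebraMap k K) (f '' (σ : Set K)) ≤ V.toSubring := by
        unfold adjoined
        rw [Subring.closure_le]
        rintro z (⟨a, rfl⟩ | ⟨s, -, rfl⟩)
        · exact hkV a
        · exact hfV s
      set A := adjoined (algebraMap k K) (f '' (σ : Set K)) with hA
      -- the fractions form a ring
      have hsub : ∀ x ∈ Algebra.adjoin k (σ : Set K), ∃ a ∈ A, ∃ b ∈ A, b ≠ 0 ∧ x = a / b := by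
        intro x hx
        induction hx using Algebra.adjoin_induction with
        | mem s hs =>
          have h1 : f s ∈ A := Subring.subset_closure (Or.inr ⟨s, hs, rfl⟩)
          by_cases hsV : s ∈ V
          · simp only [f, if_pos hsV] at h1
            exact ⟨s, h1, 1, A.one_mem, one_ne_zero, (div_one s).symm⟩
          · simp only [f, if_neg hsV] at h1
            have h0 : s ≠ 0 := fun h => hsV (h ▸ V.zero_mem)
            exact ⟨1, A.one_mem, s⁻¹, h1, inv_ne_zero h0, by rw [one_div, inv_inv]⟩
        | algebraMap r =>
          exact ⟨_, Subring.subset_closure (Or.inl ⟨r, rfl⟩), 1, A.one_mem, one_ne_zero,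
            (div_one _).symm⟩
        | add x y hx hy h1 h2 =>
          obtain ⟨a, ha, b, hb, hb0, rfl⟩ := h1
          obtain ⟨c, hc, d, hd, hd0, rfl⟩ := h2
          exact ⟨a * d + b * c, A.add_mem (A.mul_mem ha hd) (A.mul_mem hb hc), b * d,
            A.mul_mem hb hd, mul_ne_zero hb0 hd0, div_add_div _ _ hb0 hd0⟩
        | mul x y hx hy h1 h2 =>
          obtain ⟨a, ha, b, hb, hb0, rfl⟩ := h1
          obtain ⟨c, hc, d, hd, hd0, rfl⟩ := h2
          exact ⟨a * c, A.mul_mem ha hc, b * d, A.mul_mem hb hd, mul_ne_zero hb0 hd0,
            div_mul_div_comm _ _ _ _⟩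
      refine ⟨f '' (σ : Set K), σ.finite_toSet.image _, hSV, ?_, Or.inl ⟨n, hn.sd⟩⟩
      intro z
      obtain ⟨t, ht, htu, hzt⟩ := hσ z
      obtain ⟨a, ha, b, hb, hb0, h1⟩ := hsub _ ht
      obtain ⟨c, hc, d, hd, hd0, h2⟩ := hsub _ hzt
      have ht0 : t ≠ 0 := htu.ne_zero
      have ha0 : a ≠ 0 := by
        rintro rfl
        exact ht0 (by rw [h1, zero_div])
      refine ⟨c * b, A.mul_mem hc hb, d * a, A.mul_mem hd ha, mul_ne_zero hd0 ha0, ?_⟩
      rw [eq_div_iff (mul_ne_zero hd0 ha0)]
      rw [h1] at h2
      field_simp at h2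
      linear_combination h2
    · exact ⟨T, hT, hTV, hfr, Or.inr hdv.dv⟩
  obtain ⟨h1, -⟩ := main_sd hj_field (algebraMap k K) hSf hSV le_rfl
    (fun b hb => ⟨b, hb, 1, Subring.one_mem _, one_ne_zero, by rw [inv_one]; exact Subring.one_mem _,
      by rw [inv_one, mul_one]⟩) hS
  obtain ⟨T', hT'f, hT'V, hreg⟩ := lu_of_gp h1
  -- homogeneous coordinates
  obtain ⟨N, t, ht⟩ := exists_fin_range (hSf.union hT'f)
  let H : Fin (N + 1) → K := Fin.cons 1 t
  have hH0 : H 0 = 1 := rfl
  have hHs : ∀ i : Fin N, H i.succ = t i := fun i => rfl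
  have hHr : Set.range (fun l => H l / H 0) = insert 1 (S ∪ T') := by
    rw [← ht]
    ext z
    simp only [hH0, div_one]
    constructor
    · rintro ⟨l, rfl⟩
      induction l using Fin.cases with
      | zero => exact Or.inl rfl
      | succ i => exact Or.inr ⟨i, rfl⟩
    · rintro (rfl | ⟨i, rfl⟩)
      · exact ⟨0, rfl⟩
      · exact ⟨i.succ, rfl⟩
  have hcl : Subring.closure ((((algebraMap k K).range : Subring K) : Set K) ∪
      insert 1 (S ∪ T')) =
      Subring.closure (((adjoined (algebraMap k K) S : Subring K) : Set K) ∪ T') := by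
    apply le_antisymm
    · rw [Subring.closure_le]
      rintro z (hz | rfl | hz | hz)
      · exact Subring.subset_closure (Or.inl (Subring.subset_closure (Or.inl hz)))
      · exact Subring.one_mem _
      · exact Subring.subset_closure (Or.inl (Subring.subset_closure (Or.inr hz)))
      · exact Subring.subset_closure (Or.inr hz)
    · rw [Subring.closure_le]
      rintro z (hz | hz)
      · refine (Subring.closure_mono ?_) hz
        rintro w (hw | hw)
        · exact Or.inl hw
        · exact Or.inr (Or.inr (Or.inl hw))
      · exact Subring.subset_closure (Or.inr (Or.inr (Or.inr hz)))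
  have hVcl : Subring.closure ((((algebraMap k K).range : Subring K) : Set K) ∪
      insert 1 (S ∪ T')) ≤ V.toSubring := by
    rw [hcl]
    exact cl_le hSV hT'V
  have hch : (modelChart k H 0).toSubring =
      Subring.closure (((adjoined (algebraMap k K) S : Subring K) : Set K) ∪ T') := by
    unfold modelChart
    rw [adjoin_toSubring, hHr, hcl]
  obtain ⟨h3, P, hP, h4, h5⟩ := regular_centre (R := k) (T := Set.range fun l => H l / H 0)
    (V := V) (by rw [hHr]; exact hVcl) (by rw [hHr, hcl]; exact hreg)
  refine ⟨N + 1, H, 0, by rw [hH0]; exact one_ne_zero, ?_, ?_, P, hP, h4, h5⟩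
  · intro l
    exact h3 ⟨H l / H 0, Algebra.subset_adjoin ⟨l, rfl⟩⟩
  · intro z
    obtain ⟨a, ha, b, hb, hb0, hz⟩ := hfr z
    have hle : adjoined (algebraMap k K) S ≤ (modelChart k H 0).toSubring := by
      rw [hch]
      exact fun x hx => Subring.subset_closure (Or.inl hx)
    exact ⟨a, hle ha, b, hle hb, hb0, hz⟩

end Pool.Agent.Results.MP_53121e_ag.DiscretePlaces
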